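import Pool.Agent.Helper56.IT.Stmts

/-!
# Project IT (MP_a499ba_nt), blocks `StmtFs fM`, `StmtFs fL`: the sums in terms of the smooth part

An integer `m ≤ Y (r + 1) = Y r ^ 2` has at most one prime factor `> Y r`, and only to the first power.
-/

set_option autoImplicit false

namespace Pool.Agent.IT

open Finset MeasureTheory Pool.Agent.Helper5.RM Pool.Agent.Helper96.AF Pool.Agent.Helper66.LW

private theorem Y_pos90 (r : ℕ) : 0 < Y r := by unfold Y; positivity

private theorem Y_succ90 (r : ℕ) : Y (r + 1) = Y r * Y r := by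
  unfold Y
  rw [← pow_add]
  congr 1
  ring

private theorem mem_BL90 {r p : ℕ} : p ∈ BL r ↔ p.Prime ∧ Y r < p ∧ p ≤ Y (r + 1) := by
  unfold BL PP
  rw [Finset.mem_sdiff, Finset.mem_filter, Finset.mem_filter, Finset.mem_Icc, Finset.mem_Icc]
  constructor
  · rintro ⟨⟨⟨h1, h2⟩, h3⟩, h4⟩
    refine ⟨h3, ?_, h2⟩
    by_contra h
    exact h4 ⟨⟨h1, by omega⟩, h3⟩
  · rintro ⟨h1, h2, h3⟩
    exact ⟨⟨⟨h1.one_le, h3⟩, h1⟩, fun h => by omega⟩

/-- multiplicativity at the large primes -/
private def Mu (f : ℕ → ℂ) (g : ℕ → ℂ) : Prop := ∀ q k : ℕ, q.Prime → 0 < k → k < q → f (q * k) = g q * f k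

private theorem point90 {f g : ℕ → ℂ} (hf : Mu f g) (r m : ℕ) (hm1 : 1 ≤ m) (hm : m ≤ Y (r + 1)) :
    f m = smo r f m + ∑ p ∈ BL r, (if p ∣ m then g p * smo r f (m / p) else 0) := by
  by_cases h : ∀ p ∈ m.primeFactors, p ≤ Y r
  · have h1 : ∑ p ∈ BL r, (if p ∣ m then g p * smo r f (m / p) else 0) = 0 := by
      refine Finset.sum_eq_zero fun p hp => if_neg fun hd => ?_
      rw [mem_BL90] at hp
      have := h p (Nat.mem_primeFactors.2 ⟨hp.1, hd, by omega⟩)
      omega
    rw [h1, add_zero]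
    unfold smo
    rw [if_pos h]
  · have h0 : smo r f m = 0 := if_neg h
    push Not at h
    obtain ⟨q, hq, hqY⟩ := h
    rw [Nat.mem_primeFactors] at hq
    obtain ⟨hqp, hqd, -⟩ := hq
    have hqB : q ∈ BL r := mem_BL90.2 ⟨hqp, hqY, (Nat.le_of_dvd (by omega) hqd).trans hm⟩
    rw [h0, zero_add, Finset.sum_eq_single_of_mem q hqB]
    · rw [if_pos hqd]
      obtain ⟨k, hk⟩ := hqd
      have hk1 : m / q = k := by rw [hk]; exact Nat.mul_div_cancel_left k hqp.pos
      have hkpos : 0 < k := by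
        rcases Nat.eq_zero_or_pos k with h | h
        · subst h
          simp only [mul_zero] at hk
          omega
        · exact h
      have hkY : k < Y r := by
        by_contra hlt
        push Not at hlt
        have : Y r * Y r < q * k := Nat.mul_lt_mul_of_lt_of_le hqY hlt (by have := Y_pos90 r; omega)
        rw [Y_succ90] at hm
        omega
      have h2 : smo r f k = f k := if_pos fun p hp => (Nat.le_of_mem_primeFactors hp).trans hkY.le
      rw [hk1, h2, hk]
      exact hf q k hqp hkpos (by omega)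
    · intro p hp hpq
      rw [mem_BL90] at hp
      rw [if_neg]
      intro hpd
      have h2 : p * q ∣ m := by
        refine Nat.Coprime.mul_dvd_of_dvd_of_dvd ?_ hpd hqd
        exact (Nat.coprime_primes hp.1 hqp).2 hpq
      have h3 := Nat.le_of_dvd (by omega) h2
      have : Y r * Y r < p * q := Nat.mul_lt_mul_of_lt_of_le hp.2.1 hqY.le (by have := Y_pos90 r; omega)
      rw [Y_succ90] at hm
      omega

private theorem sum_dvd90 (h : ℕ → ℂ) (n p : ℕ) (hp : 0 < p) :
    ∑ m ∈ Finset.Icc 1 n, (if p ∣ m then h (m / p) else 0) = Hc h (n / p) := by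
  unfold Hc
  rw [← Finset.sum_filter]
  symm
  refine Finset.sum_bij (fun k _ => p * k) ?_ ?_ ?_ ?_
  · intro k hk
    rw [Finset.mem_Icc] at hk
    rw [Finset.mem_filter, Finset.mem_Icc]
    refine ⟨⟨?_, ?_⟩, dvd_mul_right _ _⟩
    · exact Nat.mul_pos hp (by omega)
    · calc p * k ≤ p * (n / p) := Nat.mul_le_mul_left _ hk.2
        _ ≤ n := Nat.mul_div_le n p
  · intro a _ b _ hab
    exact Nat.eq_of_mul_eq_mul_left hp hab
  · intro m hm
    rw [Finset.mem_filter, Finset.mem_Icc] at hm
    obtain ⟨⟨hm1, hm2⟩, k, hk⟩ := hm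
    refine ⟨k, ?_, hk.symm⟩
    rw [Finset.mem_Icc]
    constructor
    · rcases Nat.eq_zero_or_pos k with h0 | h0
      · subst h0
        simp only [mul_zero] at hk
        omega
      · exact h0
    · rw [Nat.le_div_iff_mul_le hp, mul_comm, ← hk]
      exact hm2
  · intro k _
    rw [Nat.mul_div_cancel_left _ hp]

private theorem fs90 {f g : ℕ → ℂ} (hf : Mu f g) (r n : ℕ) (hn : n ≤ Y (r + 1)) :
    Hc (smo r f) n + ∑ p ∈ BL r, g p * Hc (smo r f) (n / p) = Hc f n := by
  have h1 : ∀ m ∈ Finset.Icc 1 n, f m = smo r f m + ∑ p ∈ BL r, (if p ∣ m then g p * smo r f (m / p) else 0) := by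
    intro m hm
    rw [Finset.mem_Icc] at hm
    exact point90 hf r m hm.1 (hm.2.trans hn)
  have h2 : Hc f n = ∑ m ∈ Finset.Icc 1 n, (smo r f m + ∑ p ∈ BL r, (if p ∣ m then g p * smo r f (m / p) else 0)) :=
    Finset.sum_congr rfl h1
  rw [h2, Finset.sum_add_distrib, Finset.sum_comm]
  congr 1
  refine Finset.sum_congr rfl fun p hp => ?_
  rw [mem_BL90] at hp
  rw [← sum_dvd90 (smo r f) n p hp.1.pos, Finset.mul_sum]
  refine Finset.sum_congr rfl fun m _ => ?_
  split_ifs <;> simp

private theorem copr90 {q k : ℕ} (hq : q.Prime) (hk : 0 < k) (hkq : k < q) : Nat.Coprime q k := by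
  rw [Nat.Prime.coprime_iff_not_dvd hq]
  intro hd
  have := Nat.le_of_dvd hk hd
  omega

private theorem muM (th : ℕ → ℝ) (T : Finset ℕ) : Mu (fM th T) (fp th T) := by
  intro q k hq hk hkq
  have hc := copr90 hq hk hkq
  have h1 : Squarefree (q * k) ↔ Squarefree k := by
    rw [Nat.squarefree_mul hc]
    exact and_iff_right hq.prime.squarefree
  unfold fM
  by_cases h : Squarefree k
  · rw [if_pos h, if_pos (h1.2 h), hc.primeFactors_mul, Finset.prod_union hc.disjoint_primeFactors,
      hq.primeFactors, Finset.prod_singleton]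
  · rw [if_neg h, if_neg fun h2 => h (h1.1 h2), mul_zero]

private theorem muL (th : ℕ → ℝ) (T : Finset ℕ) : Mu (fL th T) (fp th T) := by
  intro q k hq hk hkq
  have hc := copr90 hq hk hkq
  have hqk : q * k ≠ 0 := mul_ne_zero hq.ne_zero hk.ne'
  unfold fL
  rw [if_neg hqk, if_neg hk.ne', hc.primeFactors_mul, Finset.prod_union hc.disjoint_primeFactors,
    hq.primeFactors, Finset.prod_singleton]
  have hqd : ¬ q ∣ k := (Nat.Prime.coprime_iff_not_dvd hq).1 hc
  congr 1
  · rw [Nat.factorization_mul hq.ne_zero hk.ne', Finsupp.add_apply, hq.factorization_self,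
      Nat.factorization_eq_zero_of_not_dvd hqd, add_zero, pow_one]
  · refine Finset.prod_congr rfl fun p hp => ?_
    have hpq : ¬ p ∣ q := by
      intro hd
      have h2 := (Nat.prime_dvd_prime_iff_eq (Nat.prime_of_mem_primeFactors hp) hq).1 hd
      subst h2
      exact hqd (Nat.dvd_of_mem_primeFactors hp)
    rw [Nat.factorization_mul hq.ne_zero hk.ne', Finsupp.add_apply,
      Nat.factorization_eq_zero_of_not_dvd hpq, zero_add]

theorem stmtFs_M : StmtFs fM := fun r th T n hn => fs90 (muM th T) r n hn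

theorem stmtFs_L : StmtFs fL := fun r th T n hn => fs90 (muL th T) r n hn

end Pool.Agent.IT
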