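import Pool.Agent.Helper56.IT.Stmts

/-!
# Project IT (MP_a499ba_nt), block S: separation by random quarter turns
-/

set_option autoImplicit false

namespace Pool.Agent.IT

open Finset MeasureTheory Pool.Agent.Helper5.RM Pool.Agent.Helper96.AF Pool.Agent.Helper66.LW

private theorem turn (ph : ℕ → ℝ) (T : Finset ℕ) (x y : ℕ → ℝ) (p : ℕ) :
    (Real.cos (tt ph T p) * x p - Real.sin (tt ph T p) * y p) ^ 2 =
      (x p ^ 2 + y p ^ 2) / 2 - sg T p * (-(((Real.cos (ph p) * x p - Real.sin (ph p) * y p) ^ 2 -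
        (Real.sin (ph p) * x p + Real.cos (ph p) * y p) ^ 2) / 2)) := by
  have h := Real.sin_sq_add_cos_sq (ph p)
  unfold tt
  by_cases hp : p ∈ T
  · rw [if_pos hp, sg_mem hp, Real.cos_add_pi_div_two, Real.sin_add_pi_div_two]
    linear_combination ((x p ^ 2 + y p ^ 2) / 2) * h
  · rw [if_neg hp, sg_not_mem hp, add_zero]
    linear_combination ((x p ^ 2 + y p ^ 2) / 2) * h

private theorem dd_sq (ph : ℕ → ℝ) (x y : ℕ → ℝ) (p : ℕ) :
    (((Real.cos (ph p) * x p - Real.sin (ph p) * y p) ^ 2 -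
        (Real.sin (ph p) * x p + Real.cos (ph p) * y p) ^ 2)) ^ 2 ≤ (x p ^ 2 + y p ^ 2) ^ 2 := by
  have h := Real.sin_sq_add_cos_sq (ph p)
  set u := (Real.cos (ph p) * x p - Real.sin (ph p) * y p) ^ 2 with hu
  set v := (Real.sin (ph p) * x p + Real.cos (ph p) * y p) ^ 2 with hv
  have hu0 : 0 ≤ u := sq_nonneg _
  have hv0 : 0 ≤ v := sq_nonneg _
  have h1 : u + v = x p ^ 2 + y p ^ 2 := by
    rw [hu, hv]
    linear_combination (x p ^ 2 + y p ^ 2) * h
  rw [← h1]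
  nlinarith [mul_nonneg hu0 hv0]

theorem stmtS : StmtS := by
  intro S x y m hm hxy ph
  obtain ⟨W, hW⟩ : ∃ W : ℝ, W = ∑ p ∈ S, (x p ^ 2 + y p ^ 2) := ⟨_, rfl⟩
  obtain ⟨d, hd⟩ : ∃ d : ℕ → ℝ, ∀ p, d p = -(((Real.cos (ph p) * x p - Real.sin (ph p) * y p) ^ 2 -
        (Real.sin (ph p) * x p + Real.cos (ph p) * y p) ^ 2) / 2) := ⟨fun p => _, fun p => rfl⟩
  rw [← hW]
  have hd2 : ∑ p ∈ S, d p ^ 2 ≤ m * W / 4 := by
    rw [hW, mul_div_right_comm, Finset.mul_sum]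
    refine Finset.sum_le_sum fun p hp => ?_
    rw [hd]
    have h1 := dd_sq ph x y p
    have h2 : 0 ≤ x p ^ 2 + y p ^ 2 := by positivity
    have h3 := mul_le_mul_of_nonneg_right (hxy p hp) h2
    nlinarith
  have h1 : pr S (fun T2 => ∑ p ∈ S, (Real.cos (tt ph T2 p) * x p - Real.sin (tt ph T2 p) * y p) ^ 2 < W / 4) ≤
      pr S (fun T => Real.exp (1 / m * (W / 4)) ≤ Real.exp (∑ p ∈ S, sg T p * (1 / m * d p))) := by
    refine pr_mono fun T _ hT => ?_
    rw [Real.exp_le_exp]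
    have h2 : ∑ p ∈ S, (Real.cos (tt ph T p) * x p - Real.sin (tt ph T p) * y p) ^ 2 =
        W / 2 - ∑ p ∈ S, sg T p * d p := by
      rw [hW, Finset.sum_div, ← Finset.sum_sub_distrib]
      refine Finset.sum_congr rfl fun p _ => ?_
      rw [turn ph T x y p, hd]
    rw [h2] at hT
    have h3 : ∑ p ∈ S, sg T p * (1 / m * d p) = 1 / m * ∑ p ∈ S, sg T p * d p := by
      rw [Finset.mul_sum]
      exact Finset.sum_congr rfl fun p _ => by ring
    rw [h3]
    exact mul_le_mul_of_nonneg_left (by linarith) (by positivity)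
  refine h1.trans ((markov (fun T _ => (Real.exp_pos _).le) (Real.exp_pos _) (av_exp S fun p => 1 / m * d p)).trans ?_)
  rw [← Real.exp_sub, Real.exp_le_exp]
  have h4 : ∑ p ∈ S, (1 / m * d p) ^ 2 = (1 / m) ^ 2 * ∑ p ∈ S, d p ^ 2 := by
    rw [Finset.mul_sum]
    exact Finset.sum_congr rfl fun p _ => by ring
  rw [h4]
  have h5 : (1 / m) ^ 2 * ∑ p ∈ S, d p ^ 2 ≤ (1 / m) ^ 2 * (m * W / 4) :=
    mul_le_mul_of_nonneg_left hd2 (by positivity)
  have h6 : (1 / m) ^ 2 * (m * W / 4) = W / (4 * m) := by field_simp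
  have h7 : 1 / m * (W / 4) = W / (4 * m) := by field_simp
  have h8 : W / (8 * m) = W / (4 * m) / 2 := by
    field_simp
    ring
  rw [h7, h8]
  linarith

end Pool.Agent.IT
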